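import Mathlib

/-!
# MP_651eca_nt, Q1: a mixed cubic sum of Shapiro Catalan triangle numbers
-/

set_option autoImplicit false

namespace Pool.Agent.Results.MP_651eca_nt.MixedCubicSum

open Finset

/-- the entries of Shapiro's Catalan triangle (for `1 ≤ k ≤ n`) -/
def B (n k : ℕ) : ℚ := (k : ℚ) / n * ((2 * n).choose (n - k) : ℚ)

/-- the same entries, extended by zero to `k > n` -/
def b (n k : ℕ) : ℚ := (k : ℚ) / n * ((2 * n).choose (n + k) : ℚ)

lemma B_eq_b {n k : ℕ} (h : k ≤ n) : B n k = b n k := by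
  unfold B b
  rw [Nat.choose_symm_of_eq_add (show 2 * n = (n - k) + (n + k) by omega)]

lemma b_zero (n : ℕ) : b n 0 = 0 := by simp [b]

lemma b_vanish {n k : ℕ} (h : n < k) : b n k = 0 := by
  rw [b, Nat.choose_eq_zero_of_lt (by omega)]
  simp

/-- the full sum -/
def S (n m : ℕ) : ℚ := ∑ k ∈ range (n + 1), b n k ^ 2 * b m k

lemma sum_eq_S (n m : ℕ) : ∑ k ∈ Icc 1 (min n m), B n k ^ 2 * B m k = S n m := by
  have h1 : ∑ k ∈ Icc 1 (min n m), B n k ^ 2 * B m k =
      ∑ k ∈ Icc 1 (min n m), b n k ^ 2 * b m k := by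
    apply sum_congr rfl
    intro k hk
    rw [mem_Icc, le_min_iff] at hk
    rw [B_eq_b hk.2.1, B_eq_b hk.2.2]
  rw [h1, S]
  apply sum_subset
  · intro k hk
    rw [mem_Icc, le_min_iff] at hk
    rw [mem_range]
    omega
  · intro k hk hk'
    rw [mem_range] at hk
    rw [mem_Icc, le_min_iff] at hk'
    rcases Nat.eq_zero_or_pos k with rfl | h0
    · rw [b_zero]; simp
    · rw [b_vanish (n := m) (by omega), mul_zero]

/-- ratio of neighbouring binomial coefficients in an odd row -/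
lemma ratio (N k : ℕ) : (((2 * N + 1).choose (N + (k + 1)) : ℕ) : ℚ) * (N + 1 + k) =
    ((2 * N + 1).choose (N + k) : ℚ) * (N + 1 - k) := by
  have h := Nat.choose_succ_right_eq (2 * N + 1) (N + k)
  by_cases hk : k ≤ N + 1
  · have h2 : 2 * N + 1 - (N + k) = N + 1 - k := by omega
    rw [h2] at h
    have h3 : (((N + 1 - k : ℕ) : ℚ)) = (N : ℚ) + 1 - k := by
      rw [Nat.cast_sub hk]; push_cast; ring
    have h4 : (((2 * N + 1).choose (N + k + 1) * (N + k + 1) : ℕ) : ℚ) =
        (((2 * N + 1).choose (N + k) * (N + 1 - k) : ℕ) : ℚ) := by rw [h]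
    rw [Nat.cast_mul, Nat.cast_mul, h3] at h4
    push_cast at h4
    rw [show N + (k + 1) = N + k + 1 by ring]
    linear_combination h4
  · rw [Nat.choose_eq_zero_of_lt (by omega), Nat.choose_eq_zero_of_lt (by omega)]
    simp

/-- from the odd row to the next even row -/
lemma up (N k : ℕ) : ((N : ℚ) + 1 + k) * ((2 * (N + 1)).choose (N + 1 + k) : ℚ) =
    (2 * N + 2) * ((2 * N + 1).choose (N + k) : ℚ) := by
  have h := Nat.add_one_mul_choose_eq (2 * N + 1) (N + k)
  have h4 : (((2 * N + 1 + 1) * (2 * N + 1).choose (N + k) : ℕ) : ℚ) =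
      (((2 * N + 1 + 1).choose (N + k + 1) * (N + k + 1) : ℕ) : ℚ) := by rw [h]
  push_cast at h4
  rw [show N + 1 + k = N + k + 1 by ring, show 2 * (N + 1) = 2 * N + 1 + 1 by ring]
  linear_combination -h4

/-- from the odd row to the previous even row -/
lemma down (m k : ℕ) : ((m : ℚ) + 1 - k) * ((2 * m + 1).choose (m + k) : ℚ) =
    (2 * m + 1) * ((2 * m).choose (m + k) : ℚ) := by
  have h := Nat.choose_mul_succ_eq (2 * m) (m + k)
  by_cases hk : k ≤ m + 1
  · have h2 : 2 * m + 1 - (m + k) = m + 1 - k := by omega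
    rw [h2] at h
    have h3 : (((m + 1 - k : ℕ) : ℚ)) = (m : ℚ) + 1 - k := by
      rw [Nat.cast_sub hk]; push_cast; ring
    have h4 : (((2 * m).choose (m + k) * (2 * m + 1) : ℕ) : ℚ) =
        (((2 * m + 1).choose (m + k) * (m + 1 - k) : ℕ) : ℚ) := by rw [h]
    rw [Nat.cast_mul, Nat.cast_mul, h3] at h4
    push_cast at h4
    linear_combination -h4
  · rw [Nat.choose_eq_zero_of_lt (by omega), Nat.choose_eq_zero_of_lt (by omega)]
    simp

/-- the certificate -/
def h (N m k : ℕ) : ℚ := ((2 * N + 1).choose (N + k) : ℚ) ^ 2 * ((2 * m + 1).choose (m + k) : ℚ) *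
  (((N : ℚ) + 1 + 2 * (m + 1)) * k * (k - 1) + (N + 1) * (m + 1))

lemma telescope (N m k : ℕ) (hm : 1 ≤ m) : h N m k - h N m (k + 1) =
    ((N : ℚ) + 1 + 2 * m) * (N + m + 2) ^ 2 / 4 * (b (N + 1) k ^ 2 * b (m + 1) k) -
      ((N : ℚ) + 1 + 2 * m + 2) * m * (2 * m + 1) / 2 * (b (N + 1) k ^ 2 * b m k) := by
  have h1 := ratio N k
  have h2 := ratio m k
  have h3 := up N k
  have h4 := up m k
  have h5 := down m k
  unfold h b
  set p : ℚ := ((2 * N + 1).choose (N + k) : ℚ)
  set q : ℚ := ((2 * m + 1).choose (m + k) : ℚ)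
  have n1 : (N : ℚ) + 1 + k ≠ 0 := by positivity
  have n2 : (m : ℚ) + 1 + k ≠ 0 := by positivity
  have n3 : 2 * (m : ℚ) + 1 ≠ 0 := by positivity
  have n4 : (N : ℚ) + 1 ≠ 0 := by positivity
  have n5 : (m : ℚ) + 1 ≠ 0 := by positivity
  have n6 : (m : ℚ) ≠ 0 := by positivity
  have e1 : (((2 * N + 1).choose (N + (k + 1)) : ℕ) : ℚ) = p * (N + 1 - k) / (N + 1 + k) := by
    rw [eq_div_iff n1, h1]
  have e2 : (((2 * m + 1).choose (m + (k + 1)) : ℕ) : ℚ) = q * (m + 1 - k) / (m + 1 + k) := by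
    rw [eq_div_iff n2, h2]
  have e3 : (((2 * (N + 1)).choose (N + 1 + k) : ℕ) : ℚ) = (2 * N + 2) * p / (N + 1 + k) := by
    rw [eq_div_iff n1, mul_comm, h3]
  have e4 : (((2 * (m + 1)).choose (m + 1 + k) : ℕ) : ℚ) = (2 * m + 2) * q / (m + 1 + k) := by
    rw [eq_div_iff n2, mul_comm, h4]
  have e5 : (((2 * m).choose (m + k) : ℕ) : ℚ) = (m + 1 - k) * q / (2 * m + 1) := by
    rw [eq_div_iff n3, mul_comm, ← h5]
  rw [e1, e2, e3, e4, e5]
  push_cast
  field_simp
  ring

/-- the recurrence in `m` -/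
lemma S_rec (N m : ℕ) (hm : 1 ≤ m) :
    ((N : ℚ) + 1 + 2 * m) * (N + m + 2) ^ 2 * S (N + 1) (m + 1) =
      2 * m * (2 * m + 1) * (N + 1 + 2 * m + 2) * S (N + 1) m +
      (N + 1) * (2 * m + 1) * ((2 * (N + 1)).choose (N + 1) : ℚ) ^ 2 * ((2 * m).choose m : ℚ) := by
  have h1 : ∑ k ∈ range (N + 1 + 1), (h N m k - h N m (k + 1)) =
      ((N : ℚ) + 1 + 2 * m) * (N + m + 2) ^ 2 / 4 * S (N + 1) (m + 1) -
      ((N : ℚ) + 1 + 2 * m + 2) * m * (2 * m + 1) / 2 * S (N + 1) m := by
    rw [S, S, mul_sum, mul_sum, ← sum_sub_distrib]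
    exact sum_congr rfl fun k _ => telescope N m k hm
  rw [sum_range_sub'] at h1
  have h2 : h N m (N + 1 + 1) = 0 := by
    rw [h, Nat.choose_eq_zero_of_lt (show 2 * N + 1 < N + (N + 1 + 1) by omega)]
    simp
  have h3 : h N m 0 = ((N : ℚ) + 1) * (2 * m + 1) *
      ((2 * (N + 1)).choose (N + 1) : ℚ) ^ 2 * ((2 * m).choose m : ℚ) / 4 := by
    have e1 := up N 0
    have e2 := down m 0
    simp only [Nat.cast_zero, add_zero, sub_zero] at e1 e2
    have n4 : (N : ℚ) + 1 ≠ 0 := by positivity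
    have e3 : ((2 * (N + 1)).choose (N + 1) : ℚ) = 2 * ((2 * N + 1).choose N : ℚ) := by
      apply mul_left_cancel₀ n4
      linear_combination e1
    rw [h, e3]
    simp only [add_zero, Nat.cast_zero]
    linear_combination ((N : ℚ) + 1) * ((2 * N + 1).choose N : ℚ) ^ 2 * e2
  rw [h2, h3] at h1
  linear_combination -4 * h1

/-! ### the closed form -/

/-- `∑_{j<m} binom(n+j,n) binom(n+j,n-1) / (m binom(n+m,n))` for `n = N + 1` -/
def A (N m : ℕ) : ℚ := (∑ j ∈ range m, ((N + 1 + j).choose (N + 1) : ℚ) *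
  ((N + 1 + j).choose N : ℚ)) / (m * ((N + 1 + m).choose (N + 1) : ℚ))

lemma choose_step (N m : ℕ) : ((m : ℚ) + 1) * ((N + 1 + (m + 1)).choose (N + 1) : ℚ) =
    (N + 1 + m + 1) * ((N + 1 + m).choose (N + 1) : ℚ) := by
  have h := Nat.choose_mul_succ_eq (N + 1 + m) (N + 1)
  rw [show N + 1 + m + 1 - (N + 1) = m + 1 by omega] at h
  have h4 : (((N + 1 + m).choose (N + 1) * (N + 1 + m + 1) : ℕ) : ℚ) =
      (((N + 1 + m + 1).choose (N + 1) * (m + 1) : ℕ) : ℚ) := by rw [h]
  push_cast at h4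
  rw [show N + 1 + (m + 1) = N + 1 + m + 1 by ring]
  linear_combination -h4

lemma choose_side (N m : ℕ) : ((m : ℚ) + 1) * ((N + 1 + m).choose N : ℚ) =
    (N + 1) * ((N + 1 + m).choose (N + 1) : ℚ) := by
  have h := Nat.choose_succ_right_eq (N + 1 + m) N
  rw [show N + 1 + m - N = m + 1 by omega] at h
  have h4 : (((N + 1 + m).choose (N + 1) * (N + 1) : ℕ) : ℚ) =
      (((N + 1 + m).choose N * (m + 1) : ℕ) : ℚ) := by rw [h]
  push_cast at h4
  linear_combination -h4

lemma choose_pos' (N m : ℕ) : ((N + 1 + m).choose (N + 1) : ℚ) ≠ 0 := by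
  have := Nat.choose_pos (show N + 1 ≤ N + 1 + m by omega)
  positivity

lemma A_rec (N m : ℕ) (hm : 1 ≤ m) : ((N : ℚ) + 1 + m + 1) * A N (m + 1) =
    m * A N m + ((N + 1 + m).choose N : ℚ) := by
  unfold A
  rw [sum_range_succ]
  have h1 := choose_step N m
  have n1 := choose_pos' N m
  have n2 := choose_pos' N (m + 1)
  have n5 : (m : ℚ) + 1 ≠ 0 := by positivity
  have n6 : (m : ℚ) ≠ 0 := by positivity
  have n7 : (N : ℚ) + 1 + m + 1 ≠ 0 := by positivity
  push_cast
  rw [h1]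
  field_simp

lemma A_one (N : ℕ) : A N 1 = (N + 1) / (N + 2) := by
  unfold A
  have h2 : (N : ℚ) + 1 + 1 = N + 2 := by ring
  simp [h2]

/-- the closed form for all `m` -/
lemma S_eq (N : ℕ) {m : ℕ} (hm : 1 ≤ m) : S (N + 1) m =
    1 / 2 * ((2 * (N + 1)).choose (N + 1) : ℚ) ^ 2 * ((2 * m).choose m : ℚ) *
      (1 - (N + 1 + 2 * m) * A N m / ((N + 1 + m).choose (N + 1) : ℚ)) := by
  induction m, hm using Nat.le_induction with
  | base =>
    have h0 : S (N + 1) 1 = b (N + 1) 1 ^ 2 := by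
      rw [S, show N + 1 + 1 = N + 2 by ring, sum_range_succ', sum_range_succ', b_zero]
      have : ∑ k ∈ range N, b (N + 1) (k + 1 + 1) ^ 2 * b 1 (k + 1 + 1) = 0 := by
        apply sum_eq_zero
        intro k _
        rw [b_vanish (n := 1) (by omega), mul_zero]
      rw [this]
      simp [b]
    rw [h0, A_one]
    have h1 : ((N + 1 + 1).choose (N + 1) : ℚ) = N + 2 := by
      rw [show N + 1 + 1 = (N + 1) + 1 by ring, Nat.choose_succ_self_right]
      push_cast; ring
    have h2 : ((N : ℚ) + 2) * ((2 * (N + 1)).choose (N + 1 + 1) : ℚ) =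
        (N + 1) * ((2 * (N + 1)).choose (N + 1) : ℚ) := by
      have h := Nat.choose_succ_right_eq (2 * (N + 1)) (N + 1)
      rw [show 2 * (N + 1) - (N + 1) = N + 1 by omega] at h
      have h4 : (((2 * (N + 1)).choose (N + 1 + 1) * (N + 1 + 1) : ℕ) : ℚ) =
        (((2 * (N + 1)).choose (N + 1) * (N + 1) : ℕ) : ℚ) := by rw [h]
      rw [Nat.cast_mul, Nat.cast_mul] at h4
      push_cast at h4
      linear_combination h4
    have n1 : (N : ℚ) + 2 ≠ 0 := by positivity
    have n2 : (N : ℚ) + 1 ≠ 0 := by positivity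
    have h3 : ((2 * (N + 1)).choose (N + 1 + 1) : ℚ) =
        (N + 1) * ((2 * (N + 1)).choose (N + 1) : ℚ) / (N + 2) := by
      rw [eq_div_iff n1]; linear_combination h2
    rw [b, h1, h3]
    simp only [mul_one, Nat.choose_one_right]
    push_cast
    field_simp
    ring
  | succ m hm ih =>
    have h1 := S_rec N m hm
    rw [ih] at h1
    have h2 := A_rec N m hm
    have h3 := choose_step N m
    have h4 := choose_side N m
    have n1 := choose_pos' N m
    have n5 : (m : ℚ) + 1 ≠ 0 := by positivity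
    have n7 : (N : ℚ) + 1 + m + 1 ≠ 0 := by positivity
    have n8 : ((N : ℚ) + 1 + 2 * m) * (N + m + 2) ^ 2 ≠ 0 := by positivity
    have h5 : ((m : ℚ) + 1) * ((2 * (m + 1)).choose (m + 1) : ℚ) =
        2 * (2 * m + 1) * ((2 * m).choose m : ℚ) := by
      exact_mod_cast Nat.succ_mul_centralBinom_succ m
    have e1 : A N (m + 1) = (m * A N m + ((N + 1 + m).choose N : ℚ)) / (N + 1 + m + 1) := by
      rw [eq_div_iff n7]; linear_combination h2
    have e2 : ((N + 1 + (m + 1)).choose (N + 1) : ℚ) =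
        (N + 1 + m + 1) * ((N + 1 + m).choose (N + 1) : ℚ) / (m + 1) := by
      rw [eq_div_iff n5]; linear_combination h3
    have e3 : ((N + 1 + m).choose N : ℚ) =
        (N + 1) * ((N + 1 + m).choose (N + 1) : ℚ) / (m + 1) := by
      rw [eq_div_iff n5]; linear_combination h4
    have e4 : ((2 * (m + 1)).choose (m + 1) : ℚ) =
        2 * (2 * m + 1) * ((2 * m).choose m : ℚ) / (m + 1) := by
      rw [eq_div_iff n5]; linear_combination h5
    apply mul_left_cancel₀ n8
    rw [h1, e1, e2, e3, e4]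
    push_cast
    have n9 : (N : ℚ) + 1 + m + 1 ≠ 0 := by positivity
    field_simp
    ring

/-- the second form of the single sum -/
def A' (N m : ℕ) : ℚ := (∑ j ∈ range (N + 1), ((m + j).choose m : ℚ) *
  ((N + 1 + j).choose N : ℚ)) / ((N + 1) * ((2 * (N + 1)).choose (N + 1) : ℚ))

lemma A'_rec (N m : ℕ) : ((N : ℚ) + 1 + m + 1) * A' N (m + 1) =
    m * A' N m + ((N + 1 + m).choose N : ℚ) := by
  have n5 : (m : ℚ) + 1 ≠ 0 := by positivity
  have n4 : (N : ℚ) + 1 ≠ 0 := by positivity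
  have key : ∀ j : ℕ, ((N : ℚ) + 1 + m + 1) * (((m + 1 + j).choose (m + 1) : ℚ) *
      ((N + 1 + j).choose N : ℚ)) - m * (((m + j).choose m : ℚ) * ((N + 1 + j).choose N : ℚ)) =
      (((m + (j + 1)).choose m : ℚ) * ((N + 1 + (j + 1)).choose N : ℚ) * (j + 1) * (j + 2) -
        ((m + j).choose m : ℚ) * ((N + 1 + j).choose N : ℚ) * j * (j + 1)) / (m + 1) := by
    intro j
    have a1 : ((m + 1 + j).choose (m + 1) : ℚ) = (m + 1 + j) * ((m + j).choose m : ℚ) / (m + 1) := by
      have h := Nat.add_one_mul_choose_eq (m + j) m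
      have h4 : (((m + j + 1) * (m + j).choose m : ℕ) : ℚ) =
        (((m + j + 1).choose (m + 1) * (m + 1) : ℕ) : ℚ) := by rw [h]
      push_cast at h4
      rw [eq_div_iff n5, show m + 1 + j = m + j + 1 by ring]
      linear_combination -h4
    have a2 : ((m + (j + 1)).choose m : ℚ) = (m + j + 1) * ((m + j).choose m : ℚ) / (j + 1) := by
      have h := Nat.choose_mul_succ_eq (m + j) m
      rw [show m + j + 1 - m = j + 1 by omega] at h
      have h4 : (((m + j).choose m * (m + j + 1) : ℕ) : ℚ) =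
        (((m + j + 1).choose m * (j + 1) : ℕ) : ℚ) := by rw [h]
      push_cast at h4
      have : (j : ℚ) + 1 ≠ 0 := by positivity
      rw [eq_div_iff this, show m + (j + 1) = m + j + 1 by ring]
      linear_combination -h4
    have a3 : ((N + 1 + (j + 1)).choose N : ℚ) =
        (N + j + 2) * ((N + 1 + j).choose N : ℚ) / (j + 2) := by
      have h := Nat.choose_mul_succ_eq (N + 1 + j) N
      rw [show N + 1 + j + 1 - N = j + 2 by omega] at h
      have h4 : (((N + 1 + j).choose N * (N + 1 + j + 1) : ℕ) : ℚ) =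
        (((N + 1 + j + 1).choose N * (j + 2) : ℕ) : ℚ) := by rw [h]
      push_cast at h4
      have : (j : ℚ) + 2 ≠ 0 := by positivity
      rw [eq_div_iff this, show N + 1 + (j + 1) = N + 1 + j + 1 by ring]
      linear_combination -h4
    rw [a1, a2, a3]
    have n2 : (j : ℚ) + 1 ≠ 0 := by positivity
    have n3 : (j : ℚ) + 2 ≠ 0 := by positivity
    field_simp
    ring
  have hsum : ((N : ℚ) + 1 + m + 1) * ∑ j ∈ range (N + 1), ((m + 1 + j).choose (m + 1) : ℚ) *
      ((N + 1 + j).choose N : ℚ) - m * ∑ j ∈ range (N + 1), ((m + j).choose m : ℚ) *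
      ((N + 1 + j).choose N : ℚ) =
      ((m + (N + 1)).choose m : ℚ) * ((N + 1 + (N + 1)).choose N : ℚ) * (N + 1) * (N + 2) /
        (m + 1) := by
    rw [mul_sum, mul_sum, ← sum_sub_distrib, sum_congr rfl fun j _ => key j, ← sum_div]
    congr 1
    have ht := sum_range_sub (fun j : ℕ => ((m + j).choose m : ℚ) * ((N + 1 + j).choose N : ℚ) *
      j * (j + 1)) (N + 1)
    simp only [Nat.cast_zero, mul_zero, zero_mul, sub_zero] at ht
    push_cast at ht
    rw [← sum_congr rfl fun j _ => ?_] at ht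
    · rw [ht]
      ring
    · ring
  have c1 : ((N : ℚ) + 2) * ((N + 1 + (N + 1)).choose N : ℚ) =
      (N + 1) * ((2 * (N + 1)).choose (N + 1) : ℚ) := by
    have := choose_side N (N + 1)
    push_cast at this
    rw [show N + 1 + (N + 1) = 2 * (N + 1) by ring] at this ⊢
    linear_combination this
  have c2 := choose_side N m
  have c3 : ((m + (N + 1)).choose m : ℚ) = ((N + 1 + m).choose (N + 1) : ℚ) := by
    rw [show m + (N + 1) = N + 1 + m by ring,
      Nat.choose_symm_of_eq_add (show N + 1 + m = m + (N + 1) by ring)]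
  have n6 : ((2 * (N + 1)).choose (N + 1) : ℚ) ≠ 0 := by
    have := Nat.choose_pos (show N + 1 ≤ 2 * (N + 1) by omega)
    positivity
  unfold A'
  rw [c3] at hsum
  have e3 : ((N + 1 + m).choose N : ℚ) =
      (N + 1) * ((N + 1 + m).choose (N + 1) : ℚ) / (m + 1) := by
    rw [eq_div_iff n5]; linear_combination c2
  rw [e3]
  generalize (∑ j ∈ range (N + 1), ((m + 1 + j).choose (m + 1) : ℚ) *
      ((N + 1 + j).choose N : ℚ)) = s1 at *
  generalize (∑ j ∈ range (N + 1), ((m + j).choose m : ℚ) * ((N + 1 + j).choose N : ℚ)) = s0 at *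
  have hs : ((N : ℚ) + 1 + m + 1) * s1 = m * s0 +
      ((N + 1 + m).choose (N + 1) : ℚ) * ((N + 1) * ((2 * (N + 1)).choose (N + 1) : ℚ)) * (N + 1) /
        (m + 1) := by
    rw [← c1]
    linear_combination hsum
  rw [← mul_div_assoc, hs]
  field_simp

lemma A'_zero_mul (N : ℕ) : A' N 1 = A N 1 := by
  have h1 := A'_rec N 0
  simp only [Nat.cast_zero, zero_mul, zero_add, add_zero, Nat.choose_succ_self_right] at h1
  rw [A_one]
  have n1 : (N : ℚ) + 2 ≠ 0 := by positivity
  rw [eq_div_iff n1]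
  push_cast at h1
  linear_combination h1

lemma A'_eq (N : ℕ) {m : ℕ} (hm : 1 ≤ m) : A' N m = A N m := by
  induction m, hm using Nat.le_induction with
  | base => exact A'_zero_mul N
  | succ m hm ih =>
    have h1 := A_rec N m hm
    have h2 := A'_rec N m
    rw [ih, ← h1] at h2
    have n7 : (N : ℚ) + 1 + m + 1 ≠ 0 := by positivity
    exact mul_left_cancel₀ n7 h2

/-- The identity of Q1, for all positive integers `n` and `m`, with `r = min n m` and
`s = max n m`. -/
theorem result (n m : ℕ) (hn : 1 ≤ n) (hm : 1 ≤ m) :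
    ∑ k ∈ Icc 1 (min n m), B n k ^ 2 * B m k =
      1 / 2 * ((2 * n).choose n : ℚ) ^ 2 * ((2 * m).choose m : ℚ) *
        (1 - ((n : ℚ) + 2 * m) / (min n m : ℕ) * ((n + m).choose n : ℚ)⁻¹ *
          ((n + min n m).choose n : ℚ)⁻¹ *
          ∑ j ∈ range (min n m), ((max n m + j).choose (max n m) : ℚ) *
            ((n + j).choose (n - 1) : ℚ)) := by
  obtain ⟨N, rfl⟩ : ∃ N, n = N + 1 := ⟨n - 1, by omega⟩
  rw [sum_eq_S, S_eq N hm]
  have n1 := choose_pos' N m
  rcases le_total m (N + 1) with h | h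
  · rw [min_eq_right h, max_eq_left h]
    simp only [Nat.add_sub_cancel]
    rw [A]
    have n6 : (m : ℚ) ≠ 0 := by positivity
    push_cast
    field_simp
  · rw [min_eq_left h, max_eq_right h, ← A'_eq N hm]
    simp only [Nat.add_sub_cancel]
    rw [A', show N + 1 + (N + 1) = 2 * (N + 1) by ring]
    have n4 : (N : ℚ) + 1 ≠ 0 := by positivity
    have n6 : ((2 * (N + 1)).choose (N + 1) : ℚ) ≠ 0 := by
      have := Nat.choose_pos (show N + 1 ≤ 2 * (N + 1) by omega)
      positivity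
    push_cast
    field_simp

end Pool.Agent.Results.MP_651eca_nt.MixedCubicSum
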